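import Mathlib

set_option autoImplicit false

namespace Pool.Agent.Results.MP_f01bcf_lc.No

variable {A : Type}

/-- Unique factorisation: equal products of code words have the same factors. -/
def IsCode (X : Set (List A)) : Prop :=
  ∀ L L' : List (List A), (∀ c ∈ L, c ∈ X) → (∀ c ∈ L', c ∈ X) → L.flatten = L'.flatten → L = L'

/-- A code properly contained in no other code. -/
def IsMaximalCode (X : Set (List A)) : Prop := IsCode X ∧ ∀ Y, IsCode Y → X ⊆ Y → Y = X

/-- The submonoid `X^*`. -/
def star (X : Finset (List A)) : Set (List A) := {w | ∃ L : List (List A), (∀ c ∈ L, c ∈ X) ∧ L.flatten = w}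

/-- `|X|`, the greatest length of a word of `X`. -/
def maxLen (X : Finset (List A)) : ℕ := X.sup List.length

def StronglyRightCompletable (X : Finset (List A)) (y : List A) : Prop :=
  ∀ u : List A, ∃ v : List A, y ++ u ++ v ∈ star X

/-- The set `(X^*)^{-1} X^*`. -/
def quot (X : Finset (List A)) : Set (List A) := {u | ∃ z ∈ star X, z ++ u ∈ star X}

/-- `a^P` is a left set of `X`, where `n` is the order of `a`. -/
def LeftSet (X : Finset (List A)) (a : A) (n : ℕ) (P : Set ℕ) : Prop :=
  ∃ y, StronglyRightCompletable X y ∧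
    P = {i | i < n ∧ y ++ List.replicate (2 * n * maxLen X + i) a ∈ star X}

/-- `a^Q` is a right set of `X`, where `n` is the order of `a`. -/
def RightSet (X : Finset (List A)) (a : A) (n : ℕ) (Q : Set ℕ) : Prop :=
  ∃ x : List A,
    Q = {k | k < n ∧ ∃ v, List.replicate (k + 2 * n * maxLen X) a ++ x ++ v ∈ star X} ∧
    ∀ i ∈ Q, ∀ j ∈ Q, i < j → List.replicate (j - i) a ∉ quot X

/-- Every `z < n` is `i + j` for exactly one pair `(i, j)` in `I × J`. -/
def Krasner (n : ℕ) (I J : Set ℕ) : Prop :=
  ∀ z < n, ∃! p : ℕ × ℕ, p.1 ∈ I ∧ p.2 ∈ J ∧ p.1 + p.2 = z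

def Z : Finset (List Bool) :=
  {[false], [true, true, true], [true, false, true], [false, true, true], [false, false, true]}

def XX : Finset (List Bool) := (Z ×ˢ Z).image fun p => p.1 ++ p.2

theorem code_of_suffix (X : Set (List A)) (h0 : [] ∉ X)
    (h : ∀ c ∈ X, ∀ d ∈ X, c <:+ d → c = d) : IsCode X := by
  intro L
  induction L using List.reverseRecOn with
  | nil =>
    intro L' _ h2 e
    cases L' with
    | nil => rfl
    | cons c L' =>
      have : c = [] := (List.append_eq_nil_iff.1 (by simpa using e.symm : c ++ L'.flatten = [])).1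
      exact absurd (this ▸ h2 c (by simp)) h0
  | append_singleton L c ih =>
    intro L' h1 h2 e
    induction L' using List.reverseRecOn with
    | nil =>
      have : c = [] := (List.append_eq_nil_iff.1 (by simpa using e : L.flatten ++ c = [])).2
      exact absurd (this ▸ h1 c (by simp)) h0
    | append_singleton L' d _ =>
      have e' : L.flatten ++ c = L'.flatten ++ d := by simpa using e
      have hc := h1 c (by simp)
      have hd := h2 d (by simp)
      have : c = d := by
        rcases List.suffix_or_suffix_of_suffix (List.suffix_append L.flatten c)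
          (e' ▸ List.suffix_append L'.flatten d) with h3 | h3
        · exact h c hc d hd h3
        · exact (h d hd c hc h3).symm
      subst this
      rw [ih L' (fun x hx => h1 x (by simp [hx])) (fun x hx => h2 x (by simp [hx]))
        (List.append_cancel_right e')]

theorem mem_XX {z z' : List Bool} (h : z ∈ Z) (h' : z' ∈ Z) : z ++ z' ∈ XX :=
  Finset.mem_image.2 ⟨(z, z'), Finset.mem_product.2 ⟨h, h'⟩, rfl⟩

theorem shift (L : List (List Bool)) : (∀ c ∈ L, c ∈ XX) → ∀ z ∈ Z,
    z ++ L.flatten ++ [false] ∈ star XX := by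
  induction L with
  | nil =>
    intro _ z hz
    exact ⟨[z ++ [false]], by simpa using mem_XX hz (by decide), by simp⟩
  | cons c L ih =>
    intro h z hz
    obtain ⟨⟨z1, z2⟩, hp, rfl⟩ := Finset.mem_image.1 (h c (by simp))
    obtain ⟨M, hM, e⟩ := ih (fun x hx => h x (by simp [hx])) z2 (Finset.mem_product.1 hp).2
    refine ⟨(z ++ z1) :: M, ?_, by simp [e]⟩
    intro x hx
    rcases List.mem_cons.1 hx with rfl | hx
    · exact mem_XX hz (Finset.mem_product.1 hp).1
    · exact hM x hx

theorem even_len {w : List Bool} (h : w ∈ star XX) : w.length % 2 = 0 := by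
  obtain ⟨L, hL, rfl⟩ := h
  induction L with
  | nil => rfl
  | cons c L ih =>
    have h1 : ∀ c ∈ XX, c.length % 2 = 0 := by decide +kernel
    have := h1 c (hL c (by simp))
    have := ih (fun x hx => hL x (by simp [hx]))
    simp only [List.flatten_cons, List.length_append]; omega

theorem maximal : IsMaximalCode (XX : Set (List Bool)) := by
  refine ⟨code_of_suffix _ (by simp only [Finset.mem_coe]; decide +kernel)
    (by simp only [Finset.mem_coe]; decide +kernel), fun Y hY hXY => ?_⟩
  refine Set.Subset.antisymm (fun w hw => ?_) hXY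
  by_contra hn
  have hn' : w ∉ XX := hn
  have := InformationTheory.kraft_mcmillan_inequality (S := insert w XX) (fun L L' h1 h2 e =>
    hY L L' (fun c hc => by
      rcases Finset.mem_insert.1 (h1 c hc) with rfl | h
      · exact hw
      · exact hXY h) (fun c hc => by
      rcases Finset.mem_insert.1 (h2 c hc) with rfl | h
      · exact hw
      · exact hXY h) e)
  rw [Finset.sum_insert hn'] at this
  have h1 : ∑ x ∈ XX, (1 / (Fintype.card Bool : ℝ)) ^ x.length = 1 := by
    have h2 : ∑ x ∈ XX, (1 / 2 : ℚ) ^ x.length = 1 := by decide +kernel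
    have h3 := congrArg (Rat.cast : ℚ → ℝ) h2
    push_cast at h3
    simpa using h3
  have h4 : 0 < (1 / (Fintype.card Bool : ℝ)) ^ w.length := by simp
  linarith

theorem result : ∃ (A : Type) (_ : Fintype A) (X : Finset (List A)) (a : A) (n : ℕ),
    IsMaximalCode (X : Set (List A)) ∧ 1 ≤ n ∧ List.replicate n a ∈ X ∧
    ¬ ∃ I J : Set ℕ, Krasner n I J ∧ LeftSet X a n I ∧ RightSet X a n J := by
  refine ⟨Bool, inferInstance, XX, true, 6, maximal, by norm_num, by decide +kernel, ?_⟩
  rintro ⟨I, J, hK, ⟨y, -, hI⟩, x, hJ, hq⟩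
  obtain ⟨⟨i0, j0⟩, ⟨hi0, -, e0⟩, -⟩ := hK 0 (by norm_num)
  obtain ⟨⟨i1, j1⟩, ⟨hi1, hj1, e1⟩, -⟩ := hK 1 (by norm_num)
  obtain ⟨⟨i0', j0'⟩, ⟨-, hj0, e0'⟩, -⟩ := hK 0 (by norm_num)
  simp only at *
  rw [hI] at hi0 hi1
  have a0 := even_len hi0.2
  have a1 := even_len hi1.2
  simp only [List.length_append, List.length_replicate] at a0 a1
  obtain rfl : j1 = 1 := by omega
  obtain rfl : j0' = 0 := by omega
  have h3 : 3 ∈ J := by
    rw [hJ] at hj0 ⊢
    obtain ⟨-, v, L, hL, e⟩ := hj0
    refine ⟨by norm_num, v ++ [false], ?_⟩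
    have := shift L hL [true, true, true] (by decide)
    rw [e] at this
    rw [List.replicate_add]
    simpa using this
  refine hq 1 hj1 3 h3 (by norm_num) ⟨[false, false], ⟨[[false, false]], ?_, rfl⟩,
    ⟨[[false, false, true, true]], ?_, rfl⟩⟩ <;> decide +kernel

end Pool.Agent.Results.MP_f01bcf_lc.No
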